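import Pool.Agent.N176.SH.Stm

/-! The sieve bound for shifted digits, from the bound for offsets. -/

set_option autoImplicit false

namespace Pool.Agent.N34.SH

open Finset
open Pool.Agent.H305R2 (roughPart)
open Pool.Agent.N176.OW (cell)
open Pool.Agent.N176.SH

/-- the digits -/
lemma Lp {b t p1 p m r : ℕ} (h1 : p1 ≤ p) (h2 : p ≤ t) (hb : 0 < b) :
    (b ^ (t - p1) * m + r) / b ^ (t - p) = b ^ (p - p1) * m + r / b ^ (t - p) := by
  have e : b ^ (t - p1) = b ^ (t - p) * b ^ (p - p1) := by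
    rw [← pow_add]
    congr 1
    omega
  rw [e, mul_assoc, Nat.mul_add_div (by positivity)]

/-- the size of the shifts -/
lemma c_le {b A : ℕ} {c : ℕ → ℤ} (hok : Ok b A c) {z p : ℕ} (hA : A ≤ p) (hz : A * z ≤ p) :
    2 * z + 1 ≤ p ∧ |c p| ≤ (b : ℤ) ^ (p - (2 * z + 1)) := by
  have hA64 := hok.hA
  have hzp : z ≤ p / A := (Nat.le_div_iff_mul_le (by omega)).2 (by rw [mul_comm]; exact hz)
  have h1 : 2 * z + 1 ≤ p := by
    have : 64 * z ≤ A * z := Nat.mul_le_mul_right z hA64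
    omega
  refine ⟨h1, ?_⟩
  have hb : (1 : ℤ) ≤ b := by
    have := hok.hb
    exact_mod_cast (by omega : 1 ≤ b)
  have hsz := hok.size p hA
  have h2 : (b : ℤ) ^ (2 * z + 1) ≤ (b : ℤ) ^ (2 * (p / A) + 1) :=
    pow_le_pow_right₀ hb (by omega)
  have h3 : |c p| * (b : ℤ) ^ (2 * z + 1) ≤ (b : ℤ) ^ p :=
    (mul_le_mul_of_nonneg_left h2 (abs_nonneg _)).trans hsz
  have h4 : (b : ℤ) ^ p = (b : ℤ) ^ (p - (2 * z + 1)) * (b : ℤ) ^ (2 * z + 1) := by
    rw [← pow_add]
    congr 1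
    omega
  rw [h4] at h3
  exact le_of_mul_le_mul_right h3 (by positivity)

/-- TU -/
theorem tu (h : S_TUA) : S_TU := by
  intro b A c hok
  have hb := hok.hb
  have hA64 := hok.hA
  obtain ⟨C, hC, P, hP⟩ := h b hb
  refine ⟨C, hC, max P A, fun x hx F hF hk p1 hp1 hmin z hz t ht r hr hnd j hj => ?_⟩
  have hxP : P ≤ x := (le_max_left _ _).trans hx
  have hxA : A ≤ x := (le_max_right _ _).trans hx
  have hbZ : (2 : ℤ) ≤ b := by exact_mod_cast hb
  have h64 : 64 * z ≤ x := (Nat.mul_le_mul_right z hA64).trans hz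
  have key := hP x hxP F hF hk p1 hp1 hmin z h64
    (fun p => ((r / b ^ (t - p) : ℕ) : ℤ) + c p) ?_ ?_ j hj
  · refine le_trans (le_of_eq ?_) key
    congr 2
    apply Finset.filter_congr
    intro m _
    have e : ∀ p ∈ F, sh c p ((b ^ (t - p1) * m + r) / b ^ (t - p)) =
        ((b : ℤ) ^ (p - p1) * (m : ℤ) + (((r / b ^ (t - p) : ℕ) : ℤ) + c p)).toNat := by
      intro p hp
      have h1 := hmin p hp
      have h2 := hF p hp
      rw [Lp h1 (by omega) (by omega)]
      unfold sh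
      congr 1
      push_cast
      ring
    constructor
    · intro h1 p hp
      have h2 := h1 p hp
      rw [e p hp] at h2
      exact h2
    · intro h1 p hp
      rw [e p hp]
      exact h1 p hp
  · intro p hp
    have h2 := hF p hp
    have h3 := hmin p hp
    obtain ⟨h4, h5⟩ := c_le hok (z := z) (p := p) (by omega) (by omega)
    have h6 : r / b ^ (t - p) < b ^ (p - p1) := by
      rw [Nat.div_lt_iff_lt_mul (by positivity), ← pow_add]
      have : p - p1 + (t - p) = t - p1 := by omega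
      rw [this]
      exact hr
    have h7 : ((r / b ^ (t - p) : ℕ) : ℤ) < (b : ℤ) ^ p := by
      have h8 : r / b ^ (t - p) < b ^ p :=
        h6.trans_le (Nat.pow_le_pow_right (by omega) (by omega))
      exact_mod_cast h8
    have h8 : (0 : ℤ) ≤ ((r / b ^ (t - p) : ℕ) : ℤ) := Nat.cast_nonneg _
    have h9 : (b : ℤ) ^ (p - (2 * z + 1)) ≤ (b : ℤ) ^ p :=
      pow_le_pow_right₀ (by omega) (by omega)
    have h10 : 2 * (b : ℤ) ^ (p - (2 * z + 1)) ≤ (b : ℤ) ^ (p - z) := by
      calc 2 * (b : ℤ) ^ (p - (2 * z + 1)) ≤ b * (b : ℤ) ^ (p - (2 * z + 1)) :=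
            mul_le_mul_of_nonneg_right hbZ (by positivity)
        _ = (b : ℤ) ^ (p - (2 * z + 1) + 1) := by rw [pow_succ, mul_comm]
        _ ≤ (b : ℤ) ^ (p - z) := pow_le_pow_right₀ (by omega) (by omega)
    have h11 : 2 * (b : ℤ) ^ p ≤ (b : ℤ) ^ (p + 1) := by
      rw [pow_succ, mul_comm]
      exact mul_le_mul_of_nonneg_left hbZ (by positivity)
    have h12 := abs_le.1 h5
    generalize ((r / b ^ (t - p) : ℕ) : ℤ) = R at *
    generalize (b : ℤ) ^ (p - (2 * z + 1)) = u at *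
    generalize (b : ℤ) ^ (p - z) = v at *
    generalize (b : ℤ) ^ (p + 1) = w at *
    generalize (b : ℤ) ^ p = y at *
    constructor
    · rw [abs_lt]
      constructor <;> omega
    · omega
  · intro p hp q hq hpq heq
    exact hnd p hp q hq hpq heq

end Pool.Agent.N34.SH
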